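import Pool.Agent.Helper93.TCU.SStmt3

/-!
# The numbers of the S-stage: SN4
-/

set_option autoImplicit false

namespace Pool.TCU

open Pool.TC Pool.TCM Pool.TCS Pool.TCV Finset
open scoped Classical

section
variable {X y : ℝ}

private theorem SN4_pw (h : X * y = 1) (a b : ℕ) : X ^ a * y ^ (a + b) = y ^ b := by
  rw [pow_add, ← mul_assoc, ← mul_pow, h, one_pow, one_mul]

private theorem SN4_pm (h0 : 0 ≤ y) (h1 : y ≤ 1) {a b : ℕ} (h : a ≤ b) : y ^ b ≤ y ^ a :=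
  pow_le_pow_of_le_one h0 h1 h

private theorem SN4_cm (h0 : 0 ≤ y) (h1 : 1000 * y ≤ 1) (c : ℝ) (hc : c ≤ 1000) {a b : ℕ}
    (h : a + 1 ≤ b) : c * y ^ b ≤ y ^ a := by
  have h2 : y ≤ 1 := by linarith
  have h3 : y ^ b ≤ y ^ (a + 1) := SN4_pm h0 h2 h
  have h4 : (0 : ℝ) ≤ y ^ a := pow_nonneg h0 a
  have h5 : (0 : ℝ) ≤ y ^ b := pow_nonneg h0 b
  calc c * y ^ b ≤ 1000 * y ^ b := mul_le_mul_of_nonneg_right hc h5
    _ ≤ 1000 * y ^ (a + 1) := mul_le_mul_of_nonneg_left h3 (by norm_num)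
    _ = (1000 * y) * y ^ a := by rw [pow_succ]; ring
    _ ≤ 1 * y ^ a := mul_le_mul_of_nonneg_right h1 h4
    _ = y ^ a := one_mul _

end

/-- the computation -/
private theorem SN4_main {X D L L0 n : ℝ} (hX : 10 ^ 20 ≤ X) (hD : X ^ 4000000 ≤ D)
    (h1 : D ≤ 22 / 10 * L) (h2 : D ≤ 2 * X ^ 520000 * L0) (h3 : n ≤ X ^ 5) (hn : 0 ≤ n)
    {dl et ep : ℝ} (hdl : dl = 1 / X ^ 4900) (het : et = 1 / X ^ 1600) (hep : ep = 1 / X ^ 15) :
    2 * ((n + 200 * X ^ 3) * ((103 * dl * D ^ 2 / L +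
      n * (64 * (X ^ 3) ^ 2 * Real.sqrt (206 * dl * D ^ 3 * X ^ 3)) / L0) +
      12 * X ^ 3 * Real.sqrt ((et * D * (103 * dl * D ^ 2 / L +
        n * (64 * (X ^ 3) ^ 2 * Real.sqrt (206 * dl * D ^ 3 * X ^ 3)) / L0) +
      X ^ 3 * (et * D) ^ 2) * X ^ 3))) ≤ ep * D := by
  have hX0 : (0 : ℝ) < X := lt_of_lt_of_le (by norm_num) hX
  have hX1 : (1 : ℝ) ≤ X := le_trans (by norm_num) hX
  obtain ⟨y, hy⟩ : ∃ y : ℝ, y = 1 / X := ⟨_, rfl⟩
  have hy0 : 0 < y := by rw [hy]; positivity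
  have hXy : X * y = 1 := by rw [hy]; field_simp
  have hy1 : 1000 * y ≤ 1 := by
    have h : (1000 : ℝ) ≤ X := le_trans (by norm_num) hX
    calc 1000 * y ≤ X * y := mul_le_mul_of_nonneg_right h hy0.le
      _ = 1 := hXy
  have hyp : ∀ a : ℕ, 1 / X ^ a = y ^ a := by
    intro a
    rw [hy, one_div_pow]
  rw [hyp] at hdl het hep
  have hDp : 0 < D := lt_of_lt_of_le (pow_pos hX0 _) hD
  have hLp : 0 < L := by linarith
  have hL0p : 0 < L0 := by
    by_contra hc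
    rw [not_lt] at hc
    have h : 2 * X ^ 520000 * L0 ≤ 0 := mul_nonpos_of_nonneg_of_nonpos (by positivity) hc
    linarith
  obtain ⟨r, hr⟩ : ∃ r : ℝ, r = Real.sqrt D := ⟨_, rfl⟩
  have hr0 : 0 ≤ r := by rw [hr]; exact Real.sqrt_nonneg _
  have hrr : r * r = D := by rw [hr]; exact Real.mul_self_sqrt hDp.le
  have hrX : X ^ 2000000 ≤ r := by
    rw [hr]
    apply Real.le_sqrt_of_sq_le
    rw [← pow_mul]
    exact hD
  have hrD : X ^ 2000000 * r ≤ D := by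
    rw [← hrr]
    exact mul_le_mul_of_nonneg_right hrX hr0
  -- `r ≤ D y ^ 2000000`
  have hrD' : r ≤ D * y ^ 2000000 := by
    have h : (X ^ 2000000 * r) * y ^ 2000000 ≤ D * y ^ 2000000 :=
      mul_le_mul_of_nonneg_right hrD (by positivity)
    have h' : (X ^ 2000000 * r) * y ^ 2000000 = r := by
      have e : X ^ 2000000 * y ^ 2000000 = 1 := by rw [← mul_pow, hXy, one_pow]
      calc (X ^ 2000000 * r) * y ^ 2000000 = (X ^ 2000000 * y ^ 2000000) * r := by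
            generalize X ^ 2000000 = u
            generalize y ^ 2000000 = v
            ring
        _ = r := by rw [e, one_mul]
    linarith
  have hdl0 : 0 ≤ dl := by rw [hdl]; positivity
  have hmono : ∀ {a b : ℕ}, a ≤ b → y ^ b ≤ y ^ a := fun h =>
    SN4_pm hy0.le (by linarith) h
  -- the first part of `t`
  have ht1 : 103 * dl * D ^ 2 / L ≤ 227 * dl * D := by
    rw [div_le_iff₀ hLp]
    have h : 103 * D ≤ 227 * L := by linarith
    have h' : (dl * D) * (103 * D) ≤ (dl * D) * (227 * L) :=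
      mul_le_mul_of_nonneg_left h (by positivity)
    nlinarith [h']
  -- the root
  have hs : Real.sqrt (206 * dl * D ^ 3 * X ^ 3) ≤ D * r := by
    rw [Real.sqrt_le_left (by positivity)]
    have e1 : (D * r) ^ 2 = D ^ 3 := by
      calc (D * r) ^ 2 = D ^ 2 * (r * r) := by ring
        _ = D ^ 3 := by rw [hrr]; ring
    rw [e1]
    have e2 : 206 * dl * X ^ 3 ≤ 1 := by
      have e3 : dl * X ^ 3 = y ^ 4897 := by
        rw [hdl, mul_comm]
        exact SN4_pw hXy 3 4897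
      have e4 : 206 * y ^ 4897 ≤ y ^ 0 :=
        SN4_cm hy0.le hy1 206 (by norm_num) (by norm_num)
      calc 206 * dl * X ^ 3 = 206 * (dl * X ^ 3) := by ring
        _ = 206 * y ^ 4897 := by rw [e3]
        _ ≤ 1 := by simpa using e4
    calc 206 * dl * D ^ 3 * X ^ 3 = (206 * dl * X ^ 3) * D ^ 3 := by ring
      _ ≤ 1 * D ^ 3 := mul_le_mul_of_nonneg_right e2 (by positivity)
      _ = D ^ 3 := one_mul _
  -- the second part of `t`
  have ht2 : n * (64 * (X ^ 3) ^ 2 * Real.sqrt (206 * dl * D ^ 3 * X ^ 3)) / L0 ≤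
      128 * (X ^ 520011 * r) := by
    rw [div_le_iff₀ hL0p]
    have e1 : n * (64 * (X ^ 3) ^ 2 * Real.sqrt (206 * dl * D ^ 3 * X ^ 3)) ≤
        X ^ 5 * (64 * (X ^ 3) ^ 2 * (D * r)) := by
      apply mul_le_mul h3 _ (by positivity) (by positivity)
      exact mul_le_mul_of_nonneg_left hs (by positivity)
    have e2 : X ^ 5 * (64 * (X ^ 3) ^ 2 * (D * r)) = (64 * X ^ 11 * r) * D := by ring
    have e3 : (64 * X ^ 11 * r) * D ≤ (64 * X ^ 11 * r) * (2 * X ^ 520000 * L0) :=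
      mul_le_mul_of_nonneg_left h2 (by positivity)
    have e4 : (64 * X ^ 11 * r) * (2 * X ^ 520000 * L0) = 128 * (X ^ 520011 * r) * L0 := by
      have e5 : X ^ 520011 = X ^ 11 * X ^ 520000 := by rw [← pow_add]
      rw [e5]
      generalize X ^ 520000 = u
      ring
    linarith
  obtain ⟨t, ht⟩ : ∃ t : ℝ, t = 103 * dl * D ^ 2 / L +
      n * (64 * (X ^ 3) ^ 2 * Real.sqrt (206 * dl * D ^ 3 * X ^ 3)) / L0 := ⟨_, rfl⟩
  rw [← ht]
  have ht0 : 0 ≤ t := by rw [ht]; positivity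
  have htb : t ≤ D * y ^ 4890 := by
    have e1 : 227 * dl * D ≤ 1 / 2 * (D * y ^ 4890) := by
      have : 454 * y ^ 4900 ≤ y ^ 4890 := SN4_cm hy0.le hy1 454 (by norm_num) (by norm_num)
      rw [hdl]
      have h' : D * (454 * y ^ 4900) ≤ D * y ^ 4890 := mul_le_mul_of_nonneg_left this hDp.le
      linarith
    have e2 : 128 * (X ^ 520011 * r) ≤ 1 / 2 * (D * y ^ 4890) := by
      have f1 : X ^ 520011 * r ≤ X ^ 520011 * (D * y ^ 2000000) :=
        mul_le_mul_of_nonneg_left hrD' (by positivity)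
      have f2 : X ^ 520011 * (D * y ^ 2000000) = D * y ^ 1479989 := by
        have := SN4_pw hXy 520011 1479989
        have e : 520011 + 1479989 = 2000000 := by norm_num
        rw [e] at this
        calc X ^ 520011 * (D * y ^ 2000000) = D * (X ^ 520011 * y ^ 2000000) := by
              generalize X ^ 520011 = u
              generalize y ^ 2000000 = v
              ring
          _ = D * y ^ 1479989 := by rw [this]
      have f3 : 256 * y ^ 1479989 ≤ y ^ 4890 :=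
        SN4_cm hy0.le hy1 256 (by norm_num) (by norm_num)
      have f4 : D * (256 * y ^ 1479989) ≤ D * y ^ 4890 := mul_le_mul_of_nonneg_left f3 hDp.le
      rw [f2] at f1
      linarith
    rw [ht]
    linarith
  -- the second root
  have hq : Real.sqrt ((et * D * t + X ^ 3 * (et * D) ^ 2) * X ^ 3) ≤ 2 * (D * y ^ 1597) := by
    rw [Real.sqrt_le_left (by positivity), het]
    have e1 : y ^ 1600 * D * t ≤ y ^ 1600 * D * (D * y ^ 4890) :=
      mul_le_mul_of_nonneg_left htb (by positivity)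
    have e2 : y ^ 1600 * D * (D * y ^ 4890) = D ^ 2 * y ^ 6490 := by
      have : y ^ 6490 = y ^ 1600 * y ^ 4890 := by rw [← pow_add]
      rw [this]; ring
    have e3 : X ^ 3 * (y ^ 1600 * D) ^ 2 = D ^ 2 * y ^ 3197 := by
      have := SN4_pw hXy 3 3197
      calc X ^ 3 * (y ^ 1600 * D) ^ 2 = D ^ 2 * (X ^ 3 * y ^ (3 + 3197)) := by
            have e : y ^ (3 + 3197) = (y ^ 1600) ^ 2 := by rw [← pow_mul]
            rw [e]; ring
        _ = D ^ 2 * y ^ 3197 := by rw [this]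
    have e4 : y ^ 6490 ≤ y ^ 3197 := hmono (by norm_num)
    have e5 : D ^ 2 * y ^ 6490 ≤ D ^ 2 * y ^ 3197 :=
      mul_le_mul_of_nonneg_left e4 (by positivity)
    have e6 : y ^ 1600 * D * t + X ^ 3 * (y ^ 1600 * D) ^ 2 ≤ 2 * (D ^ 2 * y ^ 3197) := by
      rw [e3]
      linarith
    have e7 : (y ^ 1600 * D * t + X ^ 3 * (y ^ 1600 * D) ^ 2) * X ^ 3 ≤
        2 * (D ^ 2 * y ^ 3197) * X ^ 3 := mul_le_mul_of_nonneg_right e6 (by positivity)
    have e8 : 2 * (D ^ 2 * y ^ 3197) * X ^ 3 = 2 * (D ^ 2 * y ^ 3194) := by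
      have := SN4_pw hXy 3 3194
      calc 2 * (D ^ 2 * y ^ 3197) * X ^ 3 = 2 * (D ^ 2 * (X ^ 3 * y ^ (3 + 3194))) := by ring
        _ = 2 * (D ^ 2 * y ^ 3194) := by rw [this]
    have e9 : (2 * (D * y ^ 1597)) ^ 2 = 4 * (D ^ 2 * y ^ 3194) := by
      have : y ^ 3194 = (y ^ 1597) ^ 2 := by rw [← pow_mul]
      rw [this]; ring
    rw [e9]
    have e10 : 0 ≤ D ^ 2 * y ^ 3194 := by positivity
    linarith
  -- the end
  have hf : n + 200 * X ^ 3 ≤ 2 * X ^ 5 := by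
    have h : 200 ≤ X ^ 2 := by nlinarith
    have h' : 200 * X ^ 3 ≤ X ^ 2 * X ^ 3 := mul_le_mul_of_nonneg_right h (by positivity)
    have h'' : X ^ 2 * X ^ 3 = X ^ 5 := by ring
    linarith
  have g1 : 12 * X ^ 3 * Real.sqrt ((et * D * t + X ^ 3 * (et * D) ^ 2) * X ^ 3) ≤
      24 * (D * y ^ 1594) := by
    have h := mul_le_mul_of_nonneg_left hq (show (0 : ℝ) ≤ 12 * X ^ 3 by positivity)
    have e : 12 * X ^ 3 * (2 * (D * y ^ 1597)) = 24 * (D * y ^ 1594) := by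
      have := SN4_pw hXy 3 1594
      calc 12 * X ^ 3 * (2 * (D * y ^ 1597)) = 24 * (D * (X ^ 3 * y ^ (3 + 1594))) := by ring
        _ = 24 * (D * y ^ 1594) := by rw [this]
    linarith
  have g2 : D * y ^ 4890 ≤ D * y ^ 1594 :=
    mul_le_mul_of_nonneg_left (hmono (by norm_num)) hDp.le
  have g3 : t + 12 * X ^ 3 * Real.sqrt ((et * D * t + X ^ 3 * (et * D) ^ 2) * X ^ 3) ≤
      25 * (D * y ^ 1594) := by linarith
  have g4 : 0 ≤ t + 12 * X ^ 3 * Real.sqrt ((et * D * t + X ^ 3 * (et * D) ^ 2) * X ^ 3) := by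
    positivity
  have g5 : (n + 200 * X ^ 3) *
      (t + 12 * X ^ 3 * Real.sqrt ((et * D * t + X ^ 3 * (et * D) ^ 2) * X ^ 3)) ≤
      2 * X ^ 5 * (25 * (D * y ^ 1594)) := mul_le_mul hf g3 g4 (by positivity)
  have g6 : 2 * X ^ 5 * (25 * (D * y ^ 1594)) = 50 * (D * y ^ 1589) := by
    have := SN4_pw hXy 5 1589
    calc 2 * X ^ 5 * (25 * (D * y ^ 1594)) = 50 * (D * (X ^ 5 * y ^ (5 + 1589))) := by ring
      _ = 50 * (D * y ^ 1589) := by rw [this]
  have g7 : D * (100 * y ^ 1589) ≤ D * y ^ 15 :=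
    mul_le_mul_of_nonneg_left (SN4_cm hy0.le hy1 100 (by norm_num) (by norm_num)) hDp.le
  rw [hep]
  linarith

theorem thm_SN4 : St_SN4 := by
  intro P ell x hN hS h1 h2 h3
  have hK : (P.kn : ℝ) = (P.X : ℝ) ^ 3 := by rw [hN.kn]; push_cast; rfl
  unfold Ht
  rw [hK, hN.Lam]
  exact SN4_main hS.X0 hS.D1 h1 h2 h3 (Nat.cast_nonneg _) hN.delta hN.eta hN.eps

end Pool.TCU
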